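import Pool.Agent.H29.EX.Targets

/-! DDN of the board ex_modules: density for combinations of Dirichlet characters with shifts. -/

set_option autoImplicit false

open Complex MeasureTheory Set Filter Topology

namespace Pool.Agent.H81.EX

open Pool.Agent.H29.EX Pool.Agent.H25.DL Pool.Agent.H25.DP Pool.Agent.H23.GLH

private theorem kappa_pos {k : ℕ} (r : Fin k → Fin k → Prop) [DecidableRel r] (hr : Equivalence r)
    (m : Fin k → ℝ) (hS : ∀ i, (∑ j, if r i j then m j else 0) ≠ 0) (hk : 1 ≤ k) :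
    0 < ∑ i, ∑ j, if r i j then m i * m j else 0 := by
  set S : Fin k → ℝ := fun i => ∑ j, if r i j then m j else 0 with hSd
  set c : Fin k → ℝ := fun i => ∑ j, if r i j then (1 : ℝ) else 0 with hcd
  have hc : ∀ i, 0 < c i := by
    intro i
    have h1 : (if r i i then (1 : ℝ) else 0) ≤ c i :=
      Finset.single_le_sum (f := fun j => if r i j then (1 : ℝ) else 0)
        (fun j _ => by split_ifs <;> norm_num) (Finset.mem_univ i)
    rw [if_pos (hr.refl i)] at h1
    linarith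
  have hSc : ∀ i j, r i j → S i = S j ∧ c i = c j := by
    intro i j hij
    have h : ∀ l, r i l ↔ r j l := fun l =>
      ⟨fun h => hr.trans (hr.symm hij) h, fun h => hr.trans hij h⟩
    constructor
    · simp only [hSd, h]
    · simp only [hcd, h]
  have e1 : ∑ i, ∑ j, (if r i j then m i * m j else 0) = ∑ i, m i * S i := by
    refine Finset.sum_congr rfl fun i _ => ?_
    simp only [hSd, Finset.mul_sum, mul_ite, mul_zero]
  have e2 : ∑ i, S i ^ 2 / c i = ∑ i, m i * S i := by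
    calc ∑ i, S i ^ 2 / c i = ∑ i, ∑ j, (if r i j then m j * (S i / c i) else 0) := by
          refine Finset.sum_congr rfl fun i _ => ?_
          have h1 : S i ^ 2 / c i = S i * (S i / c i) := by ring
          rw [h1]
          conv_lhs => rw [show S i = ∑ j, if r i j then m j else 0 from rfl]
          rw [Finset.sum_mul]
          refine Finset.sum_congr rfl fun j _ => ?_
          split_ifs
          · rfl
          · rw [zero_mul]
      _ = ∑ j, ∑ i, (if r i j then m j * (S i / c i) else 0) := Finset.sum_comm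
      _ = ∑ j, ∑ i, (if r j i then m j * (S j / c j) else 0) := by
          refine Finset.sum_congr rfl fun j _ => Finset.sum_congr rfl fun i _ => ?_
          by_cases h : r i j
          · rw [if_pos h, if_pos (hr.symm h), (hSc i j h).1, (hSc i j h).2]
          · rw [if_neg h, if_neg fun h' => h (hr.symm h')]
      _ = ∑ j, m j * S j := by
          refine Finset.sum_congr rfl fun j _ => ?_
          have h1 : ∑ i, (if r j i then m j * (S j / c j) else 0) =
              m j * (S j / c j) * c j := by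
            simp only [hcd, Finset.mul_sum, mul_ite, mul_one, mul_zero]
          rw [h1]
          have := (hc j).ne'
          field_simp
  rw [e1, ← e2]
  have : Nonempty (Fin k) := ⟨⟨0, hk⟩⟩
  refine Finset.sum_pos (fun i _ => ?_) Finset.univ_nonempty
  have h1 : 0 < S i ^ 2 := by
    have := hS i
    positivity
  exact div_pos h1 (hc i)

private theorem summ (δ : ℝ) (hδ : 0 < δ) :
    Summable fun p : Nat.Primes => Real.log p * (p : ℝ) ^ (-(1 + δ)) := by
  have h1 : Summable fun p : Nat.Primes => (1 / (δ / 2)) * (p : ℝ) ^ (-(1 + δ / 2)) :=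
    (Nat.Primes.summable_rpow.2 (by linarith)).mul_left _
  refine Summable.of_nonneg_of_le (fun p => ?_) (fun p => ?_) h1
  · exact mul_nonneg (Real.log_natCast_nonneg _) (by positivity)
  · have hp : (0 : ℝ) < p := by exact_mod_cast p.2.pos
    have h2 := Real.log_le_rpow_div hp.le (half_pos hδ)
    have h3 : (0 : ℝ) ≤ (p : ℝ) ^ (-(1 + δ)) := by positivity
    refine (mul_le_mul_of_nonneg_right h2 h3).trans (le_of_eq ?_)
    rw [div_mul_eq_mul_div, ← Real.rpow_add hp, div_eq_mul_inv, mul_comm, one_div]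
    congr 2
    ring

private theorem upow (p : Nat.Primes) (t : ℝ) :
    (p : ℂ) ^ (-(t * I) : ℂ) = cexp (((-(t * Real.log p) : ℝ) : ℂ) * I) := by
  have hp : ((p : ℕ) : ℂ) ≠ 0 := by exact_mod_cast p.2.ne_zero
  rw [Complex.cpow_def_of_ne_zero hp, ← Complex.natCast_log]
  congr 1
  push_cast
  ring

private theorem unorm (p : Nat.Primes) (t : ℝ) : ‖(p : ℂ) ^ (-(t * I) : ℂ)‖ = 1 := by
  rw [upow]
  exact Complex.norm_exp_ofReal_mul_I _

private theorem umul (p : Nat.Primes) (s t : ℝ) :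
    (p : ℂ) ^ (-(s * I) : ℂ) * (starRingEnd ℂ) ((p : ℂ) ^ (-(t * I) : ℂ)) =
      (p : ℂ) ^ (-(((s - t : ℝ) : ℂ) * I) : ℂ) := by
  rw [upow, upow, upow, ← Complex.exp_conj, map_mul, Complex.conj_ofReal, Complex.conj_I,
    ← Complex.exp_add]
  congr 1
  push_cast
  ring

private theorem w_bd {k : ℕ} (χ : Fin k → PrimChar) (t : Fin k → ℝ) (m : Fin k → ℤ) (n : ℕ) :
    ‖∑ i, (m i : ℂ) * chz (χ i) n * (n : ℂ) ^ (-(t i * I) : ℂ)‖ ^ 2 ≤
      (∑ i, |(m i : ℝ)|) ^ 2 := by
  refine pow_le_pow_left₀ (norm_nonneg _) ((norm_sum_le _ _).trans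
    (Finset.sum_le_sum fun i _ => ?_)) 2
  rw [norm_mul, norm_mul, Complex.norm_intCast]
  have h1 := norm_chz_le (χ i) n
  have h2 : ‖(n : ℂ) ^ (-(t i * I) : ℂ)‖ ≤ 1 := by
    rcases Nat.eq_zero_or_pos n with h0 | h0
    · subst h0
      by_cases ht : (-(t i * I) : ℂ) = 0
      · rw [ht, Complex.cpow_zero, norm_one]
      · rw [Nat.cast_zero, Complex.zero_cpow ht, norm_zero]
        exact zero_le_one
    · rw [Complex.norm_natCast_cpow_of_pos h0]
      simp
  calc |(m i : ℝ)| * ‖chz (χ i) n‖ * ‖(n : ℂ) ^ (-(t i * I) : ℂ)‖ ≤ |(m i : ℝ)| * 1 * 1 :=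
        mul_le_mul (mul_le_mul_of_nonneg_left h1 (abs_nonneg _)) h2 (norm_nonneg _) (by positivity)
    _ = |(m i : ℝ)| := by ring

/-- the term of the double series -/
private noncomputable def trm (ψ χ : PrimChar) (t : ℝ) (σ : ℝ) (p : Nat.Primes) : ℂ :=
  chz ψ p * (starRingEnd ℂ) (chz χ p) * (p : ℂ) ^ (-(t * I) : ℂ) * Real.log p *
    ((p : ℝ) ^ (-σ : ℝ) : ℝ)

private theorem trm_summ (ψ χ : PrimChar) (t δ : ℝ) (hδ : 0 < δ) :
    Summable (trm ψ χ t (1 + δ)) := by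
  refine Summable.of_norm_bounded (summ δ hδ) fun p => ?_
  unfold trm
  rw [norm_mul, norm_mul, norm_mul, norm_mul, unorm, RCLike.norm_conj, Complex.norm_real,
    Complex.norm_real, Real.norm_of_nonneg (Real.log_natCast_nonneg _),
    Real.norm_of_nonneg (by positivity)]
  have h1 := norm_chz_le ψ p
  have h2 := norm_chz_le χ p
  have h3 : ‖chz ψ p‖ * ‖chz χ p‖ * 1 ≤ 1 := by
    rw [mul_one]
    exact mul_le_one₀ h1 (norm_nonneg _) h2
  have h4 : (0 : ℝ) ≤ Real.log p * (p : ℝ) ^ (-(1 + δ)) :=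
    mul_nonneg (Real.log_natCast_nonneg _) (by positivity)
  calc ‖chz ψ p‖ * ‖chz χ p‖ * 1 * Real.log p * (p : ℝ) ^ (-(1 + δ))
      = (‖chz ψ p‖ * ‖chz χ p‖ * 1) * (Real.log p * (p : ℝ) ^ (-(1 + δ))) := by ring
    _ ≤ 1 * (Real.log p * (p : ℝ) ^ (-(1 + δ))) := mul_le_mul_of_nonneg_right h3 h4
    _ = _ := one_mul _

private theorem w_eq {k : ℕ} (χ : Fin k → PrimChar) (t : Fin k → ℝ) (m : Fin k → ℤ) (σ : ℝ)
    (p : Nat.Primes) :
    ((‖∑ i, (m i : ℂ) * chz (χ i) p * (p : ℂ) ^ (-(t i * I) : ℂ)‖ ^ 2 * Real.log p *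
      (p : ℝ) ^ (-σ : ℝ) : ℝ) : ℂ) =
      ∑ i, ∑ j, ((m i : ℂ) * m j) * trm (χ i) (χ j) (t i - t j) σ p := by
  rw [Complex.ofReal_mul, Complex.ofReal_mul, Complex.ofReal_pow, ← Complex.mul_conj', map_sum,
    Finset.sum_mul_sum, Finset.sum_mul, Finset.sum_mul]
  refine Finset.sum_congr rfl fun i _ => ?_
  rw [Finset.sum_mul, Finset.sum_mul]
  refine Finset.sum_congr rfl fun j _ => ?_
  unfold trm
  rw [← umul, map_mul, map_mul, map_intCast]
  ring

open Classical in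
private theorem lim {k : ℕ} (hLDC : T_LDC) (χ : Fin k → PrimChar) (t : Fin k → ℝ) (m : Fin k → ℤ)
    (s : ℕ) (hs : 1 ≤ s) :
    Tendsto (fun L : ℝ => (∑' p : Nat.Primes,
      ‖∑ i, (m i : ℂ) * chz (χ i) p * (p : ℂ) ^ (-(t i * I) : ℂ)‖ ^ 2 * Real.log p *
        (p : ℝ) ^ (-(1 + s / L) : ℝ)) / L) atTop
      (𝓝 ((∑ i, ∑ j, if (χ i = χ j ∧ t i = t j) then (m i : ℝ) * m j else 0) / s)) := by
  have h1 : Tendsto (fun L : ℝ => ∑ i, ∑ j, ((m i : ℂ) * m j) *
      ((∑' p : Nat.Primes, trm (χ i) (χ j) (t i - t j) (1 + s / L) p) / L)) atTop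
      (𝓝 (∑ i, ∑ j, ((m i : ℂ) * m j) * (if (χ i = χ j ∧ t i - t j = 0) then (1 : ℂ) / s else 0))) :=
    tendsto_finsetSum _ fun i _ => tendsto_finsetSum _ fun j _ =>
      (hLDC (χ i) (χ j) (t i - t j) s hs).const_mul _
  have h2 : ∀ L : ℝ, 0 < L → (((∑' p : Nat.Primes,
      ‖∑ i, (m i : ℂ) * chz (χ i) p * (p : ℂ) ^ (-(t i * I) : ℂ)‖ ^ 2 * Real.log p *
        (p : ℝ) ^ (-(1 + s / L) : ℝ)) / L : ℝ) : ℂ) = ∑ i, ∑ j, ((m i : ℂ) * m j) *
      ((∑' p : Nat.Primes, trm (χ i) (χ j) (t i - t j) (1 + s / L) p) / L) := by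
    intro L hL
    have hδ : 0 < (s : ℝ) / L := div_pos (by exact_mod_cast hs) hL
    have hsm : ∀ i j, Summable fun p : Nat.Primes =>
        ((m i : ℂ) * m j) * trm (χ i) (χ j) (t i - t j) (1 + s / L) p :=
      fun i j => (trm_summ (χ i) (χ j) (t i - t j) _ hδ).mul_left _
    rw [Complex.ofReal_div, Complex.ofReal_tsum, tsum_congr fun p => w_eq χ t m (1 + s / L) p,
      Summable.tsum_finsetSum fun i _ => summable_sum fun j _ => hsm i j, Finset.sum_div]
    refine Finset.sum_congr rfl fun i _ => ?_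
    rw [Summable.tsum_finsetSum fun j _ => hsm i j, Finset.sum_div]
    refine Finset.sum_congr rfl fun j _ => ?_
    rw [tsum_mul_left, mul_div_assoc]
  have h3 : (∑ i, ∑ j, ((m i : ℂ) * m j) * (if (χ i = χ j ∧ t i - t j = 0) then (1 : ℂ) / s else 0)) =
      (((∑ i, ∑ j, if (χ i = χ j ∧ t i = t j) then (m i : ℝ) * m j else 0) / s : ℝ) : ℂ) := by
    rw [Complex.ofReal_div, Complex.ofReal_sum, Finset.sum_div]
    refine Finset.sum_congr rfl fun i _ => ?_
    rw [Complex.ofReal_sum, Finset.sum_div]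
    refine Finset.sum_congr rfl fun j _ => ?_
    by_cases h : χ i = χ j ∧ t i = t j
    · have h' : χ i = χ j ∧ t i - t j = 0 := ⟨h.1, sub_eq_zero.2 h.2⟩
      rw [if_pos h, if_pos h']
      push_cast
      ring
    · have h' : ¬ (χ i = χ j ∧ t i - t j = 0) := fun h'' => h ⟨h''.1, sub_eq_zero.1 h''.2⟩
      rw [if_neg h, if_neg h']
      push_cast
      ring
  rw [h3] at h1
  have h4 : Tendsto (fun L : ℝ => (((∑' p : Nat.Primes,
      ‖∑ i, (m i : ℂ) * chz (χ i) p * (p : ℂ) ^ (-(t i * I) : ℂ)‖ ^ 2 * Real.log p *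
        (p : ℝ) ^ (-(1 + s / L) : ℝ)) / L : ℝ) : ℂ)) atTop
      (𝓝 (((∑ i, ∑ j, if (χ i = χ j ∧ t i = t j) then (m i : ℝ) * m j else 0) / s : ℝ) : ℂ)) := by
    refine h1.congr' ?_
    filter_upwards [eventually_gt_atTop 0] with L hL
    exact (h2 L hL).symm
  have h5 := (Complex.continuous_re.tendsto _).comp h4
  exact h5

open Classical in
theorem pf_DDN (h1 : T_KAR) (h2 : T_LDC) (h3 : T_DYD) : T_DDN := by
  intro k χ t m hS hk x₁ x₂ ε hx₁ hx₂ hε
  set w : ℕ → ℝ := fun n => ‖∑ i, (m i : ℂ) * chz (χ i) n * (n : ℂ) ^ (-(t i * I) : ℂ)‖ ^ 2 with hw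
  have hr : Equivalence fun i j : Fin k => χ i = χ j ∧ t i = t j :=
    ⟨fun _ => ⟨rfl, rfl⟩, fun h => ⟨h.1.symm, h.2.symm⟩,
      fun h h' => ⟨h.1.trans h'.1, h.2.trans h'.2⟩⟩
  have hκ : 0 < ∑ i, ∑ j, if (χ i = χ j ∧ t i = t j) then (m i : ℝ) * m j else 0 := by
    refine kappa_pos (fun i j : Fin k => χ i = χ j ∧ t i = t j) hr (fun i => (m i : ℝ)) ?_ hk
    intro i h
    apply hS i
    have h4 : ((∑ j, (if χ i = χ j ∧ t i = t j then m j else 0) : ℤ) : ℝ) = 0 := by
      rw [← h]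
      push_cast
      rfl
    exact_mod_cast h4
  have hwin := h1 w _ hκ (fun n => by positivity) ⟨_, fun n => w_bd χ t m n⟩
    (fun s hs => lim h2 χ t m s hs)
  exact h3 w (fun n => by positivity) hwin x₁ x₂ ε hx₁ hx₂ hε

end Pool.Agent.H81.EX
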